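import Mathlib
import Pool.Agent.R160.AM.LLL

/-!
# Exponential tail bound and the local lemma on infinite index sets
-/

set_option autoImplicit false

namespace Pool.Agent.R160.AM

open Classical Pool.Agent.R160.AM.LLL

universe u v

/-- the points of `P` whose value is in the box -/
noncomputable def hits {V : Type u} {T : ℕ} (P : Finset V) (Bd : V → Finset (Fin T))
    (ω : V → Fin T) : Finset V :=
  P.filter (fun v => ω v ∈ Bd v)

/-- the expected number of hits -/
noncomputable def expct {V : Type u} {T : ℕ} (P : Finset V) (Bd : V → Finset (Fin T)) : ℝ :=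
  ∑ v ∈ P, ((Bd v).card : ℝ) / T

theorem one_sum {T : ℕ} (hT : 0 < T) (B : Finset (Fin T)) (t : ℝ) (ht0 : 0 ≤ t) (ht1 : t ≤ 1) :
    ∑ q : Fin T, Real.exp (t * ((if q ∈ B then 1 else 0) - (B.card : ℝ) / T)) ≤
      T * Real.exp (t ^ 2) := by
  have hT' : (0 : ℝ) < T := by exact_mod_cast hT
  set p : ℝ := (B.card : ℝ) / T with hp
  have hp0 : 0 ≤ p := by positivity
  have hp1 : p ≤ 1 := by
    rw [hp, div_le_one hT']
    exact_mod_cast (Finset.card_le_univ B).trans (by simp)
  have h1 : ∀ q : Fin T, Real.exp (t * ((if q ∈ B then 1 else 0) - p)) =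
      Real.exp (-(t * p)) * (1 + (if q ∈ B then (Real.exp t - 1) else 0)) := by
    intro q
    split_ifs
    · rw [show (1 : ℝ) + (Real.exp t - 1) = Real.exp t by ring, ← Real.exp_add]
      congr 1
      ring
    · rw [add_zero, mul_one]
      congr 1
      ring
  rw [Finset.sum_congr rfl (fun q _ => h1 q), ← Finset.mul_sum, Finset.sum_add_distrib]
  have h2 : ∑ q : Fin T, (if q ∈ B then (Real.exp t - 1) else 0) = T * (p * (Real.exp t - 1)) := by
    rw [Finset.sum_ite_mem, Finset.univ_inter, Finset.sum_const, nsmul_eq_mul, hp]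
    field_simp
  have h3 : ∑ _q : Fin T, (1 : ℝ) = T := by simp
  rw [h2, h3]
  have h4 : 1 + p * (Real.exp t - 1) ≤ Real.exp (p * (Real.exp t - 1)) := by
    have := Real.add_one_le_exp (p * (Real.exp t - 1))
    linarith
  have h5 : Real.exp t ≤ 1 + t + t ^ 2 := by
    have := Real.abs_exp_sub_one_sub_id_le (x := t) (by rw [abs_of_nonneg ht0]; exact ht1)
    have h2 := (abs_le.mp this).2
    linarith
  calc Real.exp (-(t * p)) * (T + T * (p * (Real.exp t - 1)))
      = T * (Real.exp (-(t * p)) * (1 + p * (Real.exp t - 1))) := by ring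
    _ ≤ T * (Real.exp (-(t * p)) * Real.exp (p * (Real.exp t - 1))) := by
        refine mul_le_mul_of_nonneg_left ?_ hT'.le
        exact mul_le_mul_of_nonneg_left h4 (Real.exp_pos _).le
    _ = T * Real.exp (p * (Real.exp t - 1 - t)) := by
        rw [← Real.exp_add]
        congr 2
        ring
    _ ≤ T * Real.exp (t ^ 2) := by
        refine mul_le_mul_of_nonneg_left (Real.exp_le_exp.2 ?_) hT'.le
        nlinarith

theorem chernoff {V : Type u} [Fintype V] {T : ℕ} (hT : 0 < T) (P : Finset V)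
    (Bd : V → Finset (Fin T)) (δ : ℝ) (hδ0 : 0 ≤ δ) (hδ1 : δ ≤ 1) :
    (cnt (fun ω : V → Fin T => expct P Bd + δ * P.card < ((hits P Bd ω).card : ℝ)) : ℝ) ≤
      Real.exp (-(δ ^ 2 / 4) * P.card) * Fintype.card (V → Fin T) := by
  have hT' : (0 : ℝ) < T := by exact_mod_cast hT
  set t : ℝ := δ / 2 with ht
  have ht0 : 0 ≤ t := by rw [ht]; linarith
  have ht1 : t ≤ 1 := by rw [ht]; linarith
  set g : V → Fin T → ℝ := fun v q => if v ∈ P then
    Real.exp (t * ((if q ∈ Bd v then 1 else 0) - ((Bd v).card : ℝ) / T)) else 1 with hg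
  have hgpos : ∀ v q, 0 < g v q := by
    intro v q
    rw [hg]
    simp only
    split_ifs
    · exact Real.exp_pos _
    · exact Real.exp_pos _
    · exact one_pos
  have h1 : ∑ ω : V → Fin T, ∏ v, g v (ω v) = ∏ v, ∑ q : Fin T, g v q := by
    rw [Finset.prod_univ_sum]
    rw [Fintype.piFinset_univ]
  have h2 : ∏ v, ∑ q : Fin T, g v q ≤ ∏ v : V, (T * (if v ∈ P then Real.exp (t ^ 2) else 1)) := by
    refine Finset.prod_le_prod (fun v _ => Finset.sum_nonneg (fun q _ => (hgpos v q).le)) ?_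
    intro v _
    by_cases hv : v ∈ P
    · simp only [hg, if_pos hv]
      exact one_sum hT (Bd v) t ht0 ht1
    · simp only [hg, if_neg hv]
      simp
  have h3 : ∏ v : V, ((T : ℝ) * (if v ∈ P then Real.exp (t ^ 2) else 1)) =
      Fintype.card (V → Fin T) * Real.exp (t ^ 2 * P.card) := by
    rw [Finset.prod_mul_distrib, Finset.prod_const, Finset.prod_ite_mem, Finset.univ_inter,
      Finset.prod_const, Fintype.card_fun, Fintype.card_fin, Finset.card_univ, ← Real.exp_nat_mul]
    push_cast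
    congr 2
    ring
  have h4 : ∀ ω : V → Fin T, ∏ v, g v (ω v) =
      Real.exp (t * (((hits P Bd ω).card : ℝ) - expct P Bd)) := by
    intro ω
    simp only [hg]
    rw [Finset.prod_ite_mem, Finset.univ_inter, ← Real.exp_sum, ← Finset.mul_sum,
      Finset.sum_sub_distrib]
    congr 3
    rw [hits, Finset.card_filter]
    push_cast
    rfl
  have h5 : (cnt (fun ω : V → Fin T => expct P Bd + δ * P.card < ((hits P Bd ω).card : ℝ)) : ℝ) *
      Real.exp (t * (δ * P.card)) ≤ ∑ ω : V → Fin T, ∏ v, g v (ω v) := by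
    calc (cnt (fun ω : V → Fin T => expct P Bd + δ * P.card < ((hits P Bd ω).card : ℝ)) : ℝ) *
        Real.exp (t * (δ * P.card))
        = ∑ _ω ∈ ev (fun ω : V → Fin T => expct P Bd + δ * P.card < ((hits P Bd ω).card : ℝ)),
          Real.exp (t * (δ * P.card)) := by
          rw [Finset.sum_const, nsmul_eq_mul]; rfl
      _ ≤ ∑ ω ∈ ev (fun ω : V → Fin T => expct P Bd + δ * P.card < ((hits P Bd ω).card : ℝ)),
          ∏ v, g v (ω v) := by
          refine Finset.sum_le_sum (fun ω hω => ?_)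
          rw [mem_ev] at hω
          rw [h4]
          refine Real.exp_le_exp.2 (mul_le_mul_of_nonneg_left ?_ ht0)
          linarith
      _ ≤ _ := Finset.sum_le_sum_of_subset_of_nonneg (Finset.subset_univ _)
          (fun ω _ _ => Finset.prod_nonneg (fun v _ => (hgpos v _).le))
  have h6 : (cnt (fun ω : V → Fin T => expct P Bd + δ * P.card < ((hits P Bd ω).card : ℝ)) : ℝ) *
      Real.exp (t * (δ * P.card)) ≤ Fintype.card (V → Fin T) * Real.exp (t ^ 2 * P.card) := by
    refine h5.trans ?_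
    rw [h1, ← h3]
    exact h2
  have h7 : Real.exp (-(δ ^ 2 / 4) * P.card) * Fintype.card (V → Fin T) *
      Real.exp (t * (δ * P.card)) = Fintype.card (V → Fin T) * Real.exp (t ^ 2 * P.card) := by
    rw [mul_assoc, mul_comm (Real.exp (-(δ ^ 2 / 4) * P.card)), mul_assoc, ← Real.exp_add]
    congr 2
    rw [ht]
    ring
  rw [← h7] at h6
  exact le_of_mul_le_mul_right h6 (Real.exp_pos _)

theorem lll_fin {X : Type v} {V : Type u} [Fintype V] {T : ℕ} (hT : 0 < T) (P : X → Finset V)
    (Bd : X → V → Finset (Fin T)) (θ : X → ℝ) (p : ℝ) (hp0 : 0 ≤ p) (d : ℕ) (I : Finset X)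
    (hp : ∀ x ∈ I, (cnt (fun ω : V → Fin T => θ x < ((hits (P x) (Bd x) ω).card : ℝ)) : ℝ) ≤
      p * Fintype.card (V → Fin T))
    (hd : ∀ (x : X) (I' : Finset X), (∀ y ∈ I', ∃ v, v ∈ P x ∧ v ∈ P y) → I'.card ≤ d)
    (hd1 : 1 ≤ d) (h4 : 4 * p * d ≤ 1) :
    ∃ ω : V → Fin T, ∀ x ∈ I, ((hits (P x) (Bd x) ω).card : ℝ) ≤ θ x := by
  have : Nonempty (Fin T) := ⟨⟨0, hT⟩⟩
  obtain ⟨ω', hω'⟩ := lll (T := V) (C := Fin T) I
    (fun x ω => θ x < ((hits (P x) (Bd x) ω).card : ℝ)) P (by
      intro x _ ω ω' hωω' h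
      have : hits (P x) (Bd x) ω = hits (P x) (Bd x) ω' := by
        refine Finset.filter_congr ?_
        intro v hv
        rw [hωω' v hv]
      show θ x < ((hits (P x) (Bd x) ω').card : ℝ)
      rw [← this]
      exact h) p d hp0 hp
    (by
      intro x _
      refine hd x _ ?_
      intro y hy
      rw [Finset.mem_filter] at hy
      by_contra hdis
      refine hy.2 ?_
      rw [Finset.disjoint_left]
      intro v hv hv'
      exact hdis ⟨v, hv, hv'⟩) h4 hd1
    Fintype.card_pos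
  exact ⟨ω', fun x hx => not_lt.1 (hω' x hx)⟩

theorem lll_inf {X : Type v} {V : Type u} {T : ℕ} (hT : 0 < T) (P : X → Finset V)
    (Bd : X → V → Finset (Fin T)) (δ : ℝ) (hδ0 : 0 ≤ δ) (hδ1 : δ ≤ 1) (N : ℕ)
    (hN : ∀ x, (P x).card = N) (d : ℕ)
    (hd : ∀ (x : X) (I' : Finset X), (∀ y ∈ I', ∃ v, v ∈ P x ∧ v ∈ P y) → I'.card ≤ d)
    (hd1 : 1 ≤ d) (h4 : 4 * Real.exp (-(δ ^ 2 / 4) * N) * d ≤ 1) :
    ∃ ω : V → Fin T, ∀ x, ((hits (P x) (Bd x) ω).card : ℝ) ≤ expct (P x) (Bd x) + δ * N := by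
  have hcl : ∀ x, IsClosed {ω : V → Fin T | ((hits (P x) (Bd x) ω).card : ℝ) ≤
      expct (P x) (Bd x) + δ * N} := by
    intro x
    have hcont : Continuous (fun ω : V → Fin T => fun v : ↥(P x) => ω v.1) :=
      continuous_pi fun v => continuous_apply v.1
    have : {ω : V → Fin T | ((hits (P x) (Bd x) ω).card : ℝ) ≤ expct (P x) (Bd x) + δ * N} =
        (fun ω : V → Fin T => fun v : ↥(P x) => ω v.1) ⁻¹'
          {η : ↥(P x) → Fin T | (((P x).attach.filter (fun v => η v ∈ Bd x v.1)).card : ℝ) ≤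
            expct (P x) (Bd x) + δ * N} := by
      ext ω
      have : (hits (P x) (Bd x) ω).card =
          ((P x).attach.filter (fun v => ω v.1 ∈ Bd x v.1)).card := by
        refine (Finset.card_bij (fun v _ => v.1) ?_ ?_ ?_).symm
        · intro v hv
          exact Finset.mem_filter.2 ⟨v.2, (Finset.mem_filter.1 hv).2⟩
        · intro v _ w _ h
          exact Subtype.ext h
        · intro v hv
          obtain ⟨h1, h2⟩ := Finset.mem_filter.1 hv
          exact ⟨⟨v, h1⟩, Finset.mem_filter.2 ⟨Finset.mem_attach _ _, h2⟩, rfl⟩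
      show ((hits (P x) (Bd x) ω).card : ℝ) ≤ expct (P x) (Bd x) + δ * N ↔
        (((P x).attach.filter (fun v => ω v.1 ∈ Bd x v.1)).card : ℝ) ≤
          expct (P x) (Bd x) + δ * N
      rw [this]
    rw [this]
    exact (isClosed_discrete _).preimage hcont
  have hne : ((Set.univ : Set (V → Fin T)) ∩
      ⋂ x, {ω : V → Fin T | ((hits (P x) (Bd x) ω).card : ℝ) ≤
        expct (P x) (Bd x) + δ * N}).Nonempty := by
    refine isCompact_univ.inter_iInter_nonempty _ hcl ?_
    intro I
    let W : Finset V := I.biUnion P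
    let P' : X → Finset ↥W := fun x => W.attach.filter (fun v => v.1 ∈ P x)
    let Bd' : X → ↥W → Finset (Fin T) := fun x v => Bd x v.1
    have hsub : ∀ x ∈ I, P x ⊆ W := fun x hx => Finset.subset_biUnion_of_mem P hx
    have hPcard : ∀ x ∈ I, (P' x).card = N := by
      intro x hx
      rw [← hN x]
      refine Finset.card_bij (fun v _ => v.1) ?_ ?_ ?_
      · intro v hv
        exact (Finset.mem_filter.1 hv).2
      · intro v _ w _ h
        exact Subtype.ext h
      · intro v hv
        exact ⟨⟨v, hsub x hx hv⟩, Finset.mem_filter.2 ⟨Finset.mem_attach _ _, hv⟩, rfl⟩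
    have hexp : ∀ x ∈ I, expct (P' x) (Bd' x) = expct (P x) (Bd x) := by
      intro x hx
      unfold expct
      refine Finset.sum_bij (fun v _ => v.1) ?_ ?_ ?_ ?_
      · intro v hv
        exact (Finset.mem_filter.1 hv).2
      · intro v _ w _ h
        exact Subtype.ext h
      · intro v hv
        exact ⟨⟨v, hsub x hx hv⟩, Finset.mem_filter.2 ⟨Finset.mem_attach _ _, hv⟩, rfl⟩
      · intro v _
        rfl
    obtain ⟨ω', hω'⟩ := lll_fin hT P' Bd' (fun x => expct (P' x) (Bd' x) + δ * (P' x).card)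
      (Real.exp (-(δ ^ 2 / 4) * N)) (Real.exp_pos _).le d I (by
        intro x hx
        have := chernoff hT (P' x) (Bd' x) δ hδ0 hδ1
        rw [hPcard x hx] at this ⊢
        exact this) (by
        intro x I' hI'
        refine hd x I' ?_
        intro y hy
        obtain ⟨v, h2, h3⟩ := hI' y hy
        exact ⟨v.1, (Finset.mem_filter.1 h2).2, (Finset.mem_filter.1 h3).2⟩) hd1 h4
    let ω : V → Fin T := fun v => if h : v ∈ W then ω' ⟨v, h⟩ else ⟨0, hT⟩
    refine ⟨ω, Set.mem_univ _, ?_⟩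
    rw [Set.mem_iInter₂]
    intro x hx
    show ((hits (P x) (Bd x) ω).card : ℝ) ≤ expct (P x) (Bd x) + δ * N
    have h1 := hω' x hx
    rw [hexp x hx, hPcard x hx] at h1
    refine le_trans ?_ h1
    have : hits (P x) (Bd x) ω ⊆ (hits (P' x) (Bd' x) ω').image (fun v => v.1) := by
      intro v hv
      obtain ⟨h1, h2⟩ := Finset.mem_filter.1 hv
      have h3 := hsub x hx h1
      have h4 : ω v = ω' ⟨v, h3⟩ := dif_pos h3
      rw [h4] at h2
      refine Finset.mem_image.2 ⟨⟨v, h3⟩, ?_, rfl⟩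
      exact Finset.mem_filter.2 ⟨Finset.mem_filter.2 ⟨Finset.mem_attach _ _, h1⟩, h2⟩
    exact_mod_cast (Finset.card_le_card this).trans Finset.card_image_le
  obtain ⟨ω, _, hω⟩ := hne
  exact ⟨ω, fun x => Set.mem_iInter.1 hω x⟩

end Pool.Agent.R160.AM
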