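import Mathlib
import Pool.Agent.PackIndex.Defs

/-!
# Non-amenable groups double finite sets
-/

set_option autoImplicit false

namespace Pool.Agent.R160.AM

open Pool.Agent.PackIndex Filter Topology
open scoped Pointwise Classical

universe u

theorem amenable_of_folner {G : Type u} [Group G]
    (h : ∀ (S : Finset G) (ε : ℝ), 0 < ε → ∃ F : Finset G, F.Nonempty ∧
      ∀ s ∈ S, ((F.filter (fun x => s * x ∉ F)).card : ℝ) ≤ ε * F.card) : IsAmenable G := by
  have h' : ∀ i : Finset G × ℕ, ∃ F : Finset G, F.Nonempty ∧
      ∀ s ∈ i.1, ((F.filter (fun x => s * x ∉ F)).card : ℝ) ≤ (1 / ((i.2 : ℝ) + 1)) * F.card :=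
    fun i => h i.1 _ (by positivity)
  choose F hFne hF using h'
  set U : Ultrafilter (Finset G × ℕ) := Ultrafilter.of atTop with hU
  have hUle : (U : Filter (Finset G × ℕ)) ≤ atTop := Ultrafilter.of_le _
  set f : Set G → Finset G × ℕ → ℝ := fun A i => (((F i).filter (· ∈ A)).card : ℝ) / (F i).card
    with hf
  have hpos : ∀ i, (0 : ℝ) < (F i).card := fun i => by
    exact_mod_cast Finset.card_pos.2 (hFne i)
  have hf01 : ∀ A i, f A i ∈ Set.Icc (0 : ℝ) 1 := by
    intro A i
    refine ⟨by positivity, ?_⟩
    rw [hf]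
    simp only
    rw [div_le_one (hpos i)]
    exact_mod_cast Finset.card_filter_le _ _
  have hlim : ∀ A : Set G, ∃ m ∈ Set.Icc (0 : ℝ) 1, Tendsto (f A) U (𝓝 m) := by
    intro A
    have := (isCompact_Icc (a := (0 : ℝ)) (b := 1)).ultrafilter_le_nhds (U.map (f A)) (by
      rw [le_principal_iff]
      exact Filter.mem_map.2 (Filter.univ_mem' (fun i => hf01 A i)))
    obtain ⟨m, hm, hle⟩ := this
    exact ⟨m, hm, hle⟩
  choose m hm01 hm using hlim
  refine ⟨m, fun A => (hm01 A).1, ?_, ?_, ?_⟩
  · have h1 : f Set.univ = fun _ => 1 := by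
      funext i
      simp only [hf, Set.mem_univ, Finset.filter_true]
      exact div_self (hpos i).ne'
    have h2 := hm Set.univ
    rw [h1] at h2
    exact tendsto_nhds_unique h2 tendsto_const_nhds
  · intro A B hAB
    have h1 : f (A ∪ B) = fun i => f A i + f B i := by
      funext i
      simp only [hf]
      rw [← add_div, ← Nat.cast_add]
      congr 2
      rw [← Finset.card_union_of_disjoint, ← Finset.filter_or]
      · refine congrArg Finset.card ?_
        ext x
        simp only [Finset.mem_filter, Set.mem_union]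
      · rw [Finset.disjoint_filter]
        intro x _ hxA hxB
        exact Set.disjoint_left.1 hAB hxA hxB
    have h2 := hm (A ∪ B)
    rw [h1] at h2
    exact tendsto_nhds_unique h2 ((hm A).add (hm B))
  · have key : ∀ (g : G) (A : Set G), m ((fun x => g * x) '' A) ≤ m A := by
      intro g A
      have h1 : Tendsto (fun i : Finset G × ℕ => f A i + 1 / ((i.2 : ℝ) + 1)) U (𝓝 (m A + 0)) := by
        refine (hm A).add ?_
        have h2 : Tendsto (fun i : Finset G × ℕ => i.2) atTop atTop := tendsto_snd.mono_left (by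
          rw [← prod_atTop_atTop_eq])
        exact (tendsto_one_div_add_atTop_nhds_zero_nat (𝕜 := ℝ)).comp (h2.mono_left hUle)
      rw [add_zero] at h1
      refine le_of_tendsto_of_tendsto (hm _) h1 ?_
      have h3 : ∀ᶠ i : Finset G × ℕ in (U : Filter (Finset G × ℕ)), g⁻¹ ∈ i.1 := by
        refine hUle ?_
        filter_upwards [eventually_ge_atTop (({g⁻¹} : Finset G), 0)] with i hi
        exact hi.1 (Finset.mem_singleton_self _)
      filter_upwards [h3] with i hi
      have h4 := hF i g⁻¹ hi
      have h5 : ((F i).filter (· ∈ (fun x => g * x) '' A)).card ≤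
          ((F i).filter (· ∈ A)).card + ((F i).filter (fun x => g⁻¹ * x ∉ F i)).card := by
        have h6 : (((F i).filter (· ∈ (fun x => g * x) '' A)).filter (fun x => g⁻¹ * x ∈ F i)).card ≤
            ((F i).filter (· ∈ A)).card := by
          refine Finset.card_le_card_of_injOn (fun x => g⁻¹ * x) ?_ ?_
          · intro x hx
            simp only [Finset.coe_filter, Set.mem_ofPred_eq, Finset.mem_filter] at hx ⊢
            obtain ⟨⟨hx1, a, ha, hax⟩, hx2⟩ := hx
            refine ⟨hx2, ?_⟩
            have : g⁻¹ * x = a := by rw [← hax]; simp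
            rw [this]
            exact ha
          · intro x _ y _ hxy
            exact mul_left_cancel hxy
        have h7 : (((F i).filter (· ∈ (fun x => g * x) '' A)).filter
            (fun x => ¬ g⁻¹ * x ∈ F i)).card ≤ ((F i).filter (fun x => g⁻¹ * x ∉ F i)).card := by
          refine Finset.card_le_card ?_
          intro x hx
          simp only [Finset.mem_filter] at hx ⊢
          exact ⟨hx.1.1, hx.2⟩
        have h8 := Finset.card_filter_add_card_filter_not
          (s := (F i).filter (· ∈ (fun x => g * x) '' A)) (fun x => g⁻¹ * x ∈ F i)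
        omega
      have h9 : (((F i).filter (· ∈ (fun x => g * x) '' A)).card : ℝ) ≤
          ((F i).filter (· ∈ A)).card + ((F i).filter (fun x => g⁻¹ * x ∉ F i)).card := by
        exact_mod_cast h5
      simp only [hf]
      rw [div_le_iff₀ (hpos i), add_mul, div_mul_cancel₀ _ (hpos i).ne']
      linarith
    intro g A
    refine le_antisymm (key g A) ?_
    have h1 := key g⁻¹ ((fun x => g * x) '' A)
    have h2 : (fun x => g⁻¹ * x) '' ((fun x => g * x) '' A) = A := by
      rw [Set.image_image]
      simp
    rwa [h2] at h1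

/-- a non-amenable group has a paradoxical map -/
theorem exists_para {G : Type u} [Group G] (hna : ¬ IsAmenable G) :
    ∃ (T : Finset G) (c : G × Bool → G), (∀ q, c q ∈ T) ∧
      Function.Injective (fun q : G × Bool => c q * q.1) := by
  have hF : ¬ (∀ (S : Finset G) (ε : ℝ), 0 < ε → ∃ F : Finset G, F.Nonempty ∧
      ∀ s ∈ S, ((F.filter (fun x => s * x ∉ F)).card : ℝ) ≤ ε * F.card) :=
    fun h => hna (amenable_of_folner h)
  push Not at hF
  obtain ⟨S, ε, hε, hF⟩ := hF
  set S' : Finset G := insert 1 S with hS'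
  have hexp : ∀ F : Finset G, (1 + ε) * F.card ≤ ((S' * F).card : ℝ) := by
    intro F
    rcases F.eq_empty_or_nonempty with rfl | hne
    · simp
    obtain ⟨s, hs, hlt⟩ := hF F hne
    have h1 : F ⊆ S' * F := by
      intro x hx
      exact Finset.mem_mul.2 ⟨1, by simp [hS'], x, hx, one_mul x⟩
    have h2 : (F.filter (fun x => s * x ∉ F)).image (fun x => s * x) ⊆ (S' * F) \ F := by
      intro y hy
      obtain ⟨x, hx, rfl⟩ := Finset.mem_image.1 hy
      rw [Finset.mem_filter] at hx
      rw [Finset.mem_sdiff]
      exact ⟨Finset.mem_mul.2 ⟨s, by simp [hS', hs], x, hx.1, rfl⟩, hx.2⟩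
    have h3 : ((F.filter (fun x => s * x ∉ F)).image (fun x => s * x)).card
        = (F.filter (fun x => s * x ∉ F)).card :=
      Finset.card_image_of_injective _ (mul_right_injective s)
    have h5 := Finset.card_le_card h2
    rw [h3] at h5
    have h6 : (S' * F).card = ((S' * F) \ F).card + F.card := by
      rw [Finset.card_sdiff_add_card_eq_card h1]
    have h7 : ((F.filter (fun x => s * x ∉ F)).card : ℝ) ≤ (((S' * F) \ F).card : ℝ) := by
      exact_mod_cast h5
    have h8 : ((S' * F).card : ℝ) = (((S' * F) \ F).card : ℝ) + F.card := by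
      exact_mod_cast h6
    rw [h8]
    nlinarith
  have hpow : ∀ (k : ℕ) (F : Finset G), (1 + ε) ^ k * F.card ≤ ((S' ^ k * F).card : ℝ) := by
    intro k
    induction k with
    | zero => intro F; simp
    | succ k ih =>
      intro F
      have h1 := hexp (S' ^ k * F)
      have h2 := ih F
      rw [pow_succ', pow_succ', mul_assoc, mul_assoc]
      calc (1 + ε) * ((1 + ε) ^ k * F.card) ≤ (1 + ε) * ((S' ^ k * F).card : ℝ) :=
            mul_le_mul_of_nonneg_left h2 (by linarith)
        _ ≤ _ := h1
  obtain ⟨k, hk⟩ := pow_unbounded_of_one_lt 2 (show 1 < 1 + ε by linarith)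
  set T : Finset G := S' ^ k with hT
  have hT2 : ∀ F : Finset G, 2 * F.card ≤ (T * F).card := by
    intro F
    have h1 := hpow k F
    have h2 : (2 : ℝ) * F.card ≤ ((T * F).card : ℝ) := by
      refine le_trans ?_ h1
      exact mul_le_mul_of_nonneg_right hk.le (Nat.cast_nonneg _)
    exact_mod_cast h2
  -- Hall
  have hall := (Finset.all_card_le_biUnion_card_iff_exists_injective
    (fun q : G × Bool => T * {q.1})).1 (by
      intro s
      have h1 : s.biUnion (fun q : G × Bool => T * {q.1}) = T * s.image Prod.fst := by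
        ext y
        simp only [Finset.mem_biUnion, Finset.mem_mul, Finset.mem_singleton, Finset.mem_image]
        constructor
        · rintro ⟨q, hq, t, ht, x, rfl, rfl⟩
          exact ⟨t, ht, q.1, ⟨q, hq, rfl⟩, rfl⟩
        · rintro ⟨t, ht, x, ⟨q, hq, rfl⟩, rfl⟩
          exact ⟨q, hq, t, ht, q.1, rfl, rfl⟩
      rw [h1]
      have h2 : s ⊆ (s.image Prod.fst) ×ˢ (Finset.univ : Finset Bool) := by
        intro q hq
        exact Finset.mem_product.2 ⟨Finset.mem_image_of_mem _ hq, Finset.mem_univ _⟩
      have h3 := Finset.card_le_card h2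
      rw [Finset.card_product] at h3
      have h4 : (Finset.univ : Finset Bool).card = 2 := by decide
      rw [h4] at h3
      calc s.card ≤ 2 * (s.image Prod.fst).card := by omega
        _ ≤ _ := hT2 _)
  obtain ⟨f, hf, hfT⟩ := hall
  have hc : ∀ q : G × Bool, ∃ t ∈ T, f q = t * q.1 := by
    intro q
    obtain ⟨t, ht, x, hx, h⟩ := Finset.mem_mul.1 (hfT q)
    rw [Finset.mem_singleton] at hx
    exact ⟨t, ht, by rw [← h, hx]⟩
  choose c hcT hcf using hc
  refine ⟨T, c, hcT, ?_⟩
  have : (fun q : G × Bool => c q * q.1) = f := by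
    funext q
    exact (hcf q).symm
  rw [this]
  exact hf

end Pool.Agent.R160.AM
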