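import Mathlib
import Pool.Agent.PackIndex.Defs
import Pool.Agent.R160.AM.Fol
import Pool.Agent.R160.AM.Chern

/-!
# Partitions of non-amenable groups
-/

set_option autoImplicit false

namespace Pool.Agent.R160.AM

open Pool.Agent.PackIndex Filter Topology
open scoped Classical

universe u

theorem infinite_of_para {G : Type u} [Group G] (c : G × Bool → G)
    (hinj : Function.Injective (fun q : G × Bool => c q * q.1)) : Infinite G := by
  by_contra hfin
  rw [not_infinite_iff_finite] at hfin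
  have : Fintype G := Fintype.ofFinite G
  have h1 := Fintype.card_le_of_injective _ hinj
  rw [Fintype.card_prod, Fintype.card_bool] at h1
  have h2 : 0 < Fintype.card G := Fintype.card_pos
  omega

/-- distribute `K` balls into urns with capacities `F j` of sum at least `K` -/
theorem exists_urns {J : Type u} [Fintype J] (F : J → ℕ) (K : ℕ) (hK : K ≤ ∑ j, F j) :
    ∃ ψ : Fin K → J, ∀ j, ((Finset.univ : Finset (Fin K)).filter (fun q => ψ q = j)).card ≤ F j := by
  have h1 : Fintype.card (Fin K) ≤ Fintype.card (Σ j, Fin (F j)) := by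
    rw [Fintype.card_sigma]
    simpa using hK
  obtain ⟨e⟩ := Function.Embedding.nonempty_of_card_le h1
  refine ⟨fun q => (e q).1, fun j => ?_⟩
  have h2 : ((Finset.univ : Finset (Fin K)).filter (fun q => (e q).1 = j)).card ≤
      ((Finset.univ : Finset (Fin (F j))).map ⟨fun a => (⟨j, a⟩ : Σ j, Fin (F j)), by
        intro a b hab
        simpa using hab⟩).card := by
    refine Finset.card_le_card_of_injOn e ?_ e.injective.injOn
    intro q hq
    rw [Finset.mem_coe, Finset.mem_filter] at hq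
    rw [Finset.mem_coe, Finset.mem_map]
    refine ⟨hq.2 ▸ (e q).2, Finset.mem_univ _, ?_⟩
    obtain ⟨_, rfl⟩ := hq
    rfl
  rw [Finset.card_map, Finset.card_univ, Fintype.card_fin] at h2
  exact h2

theorem exists_N (δ : ℝ) (hδ : 0 < δ) (K : ℝ) : ∃ N : ℕ, 0 < N ∧ 1 / (N : ℝ) ≤ δ ∧
    4 * Real.exp (-(δ ^ 2 / 4) * N) * (K * N ^ 2) ≤ 1 := by
  have h1 : Tendsto (fun x : ℝ => x ^ 2 * Real.exp (-x)) atTop (𝓝 0) :=
    Real.tendsto_pow_mul_exp_neg_atTop_nhds_zero 2
  have hc : 0 < δ ^ 2 / 4 := by positivity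
  have h2 : Tendsto (fun N : ℕ => (δ ^ 2 / 4) * (N : ℝ)) atTop atTop :=
    Tendsto.const_mul_atTop hc tendsto_natCast_atTop_atTop
  have h3 := (h1.comp h2).const_mul (4 * K / (δ ^ 2 / 4) ^ 2)
  rw [mul_zero] at h3
  have h4 : ∀ᶠ N : ℕ in atTop, 4 * K / (δ ^ 2 / 4) ^ 2 *
      ((fun x : ℝ => x ^ 2 * Real.exp (-x)) ∘ fun N : ℕ => (δ ^ 2 / 4) * (N : ℝ)) N < 1 :=
    h3.eventually_lt_const one_pos
  have h5 : ∀ᶠ N : ℕ in atTop, 1 / (N : ℝ) < δ :=
    tendsto_one_div_atTop_nhds_zero_nat.eventually_lt_const hδ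
  obtain ⟨N, h6, h7, h8⟩ := (h4.and (h5.and (eventually_gt_atTop 0))).exists
  refine ⟨N, h8, h7.le, ?_⟩
  simp only [Function.comp_def] at h6
  have h9 : 4 * Real.exp (-(δ ^ 2 / 4) * N) * (K * N ^ 2) = 4 * K / (δ ^ 2 / 4) ^ 2 *
      ((δ ^ 2 / 4 * N) ^ 2 * Real.exp (-(δ ^ 2 / 4 * N))) := by
    rw [show -(δ ^ 2 / 4) * (N : ℝ) = -(δ ^ 2 / 4 * N) by ring]
    field_simp
  rw [h9]
  exact h6.le

/-- the values of `c` -/
noncomputable def pc {G : Type u} [Group G] (c : G × Bool → G) (t : G) (b : Bool) (x : G) : ℕ :=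
  if c (x, b) = t then 1 else 0

theorem pc_le {G : Type u} [Group G] (c : G × Bool → G) (t : G) (b : Bool) (x : G) :
    pc c t b x ≤ 1 := by
  unfold pc; split_ifs <;> omega

/-- **Main construction.** In a group with a paradoxical map there is a partition into `M` nonempty
cells and, for every cell, a finitely supported probability measure which gives all right translates
of the cell mass at most `1/M - η`. -/
theorem exists_colouring {G : Type u} [Group G] (T : Finset G) (c : G × Bool → G)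
    (hcT : ∀ q, c q ∈ T) (hinj : Function.Injective (fun q : G × Bool => c q * q.1)) :
    ∃ (M : ℕ) (_ : 0 < M) (col : G → Fin M) (_ : Function.Surjective col) (L N : ℕ) (_ : 0 < L)
      (_ : 0 < N) (s : Fin M → G) (Z : Finset G) (η : ℝ), 0 < η ∧ Z.card = N ∧
      ∀ (j : Fin M) (y : G), ∑ k ∈ Finset.range L,
        ((Z.filter (fun z => col (s j ^ k * z * y) = j)).card : ℝ) ≤ (1 / (M : ℝ) - η) * (L * N) := by
  have hGinf : Infinite G := infinite_of_para c hinj
  set J : Type u := ↥T × Bool with hJ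
  set M : ℕ := Fintype.card J with hM
  have hMpos : 0 < M := by
    rw [hM, Fintype.card_pos_iff]
    exact ⟨⟨c (1, true), hcT _⟩, true⟩
  set e : J ≃ Fin M := Fintype.equivFin J with he
  -- capacities
  set F : G → J → ℕ := fun x j => 1 + pc c j.1 j.2 x - pc c j.1 j.2 ((j.1 : G)⁻¹ * x) with hF
  have hFreal : ∀ x j, (F x j : ℝ) = 1 + pc c j.1 j.2 x - pc c j.1 j.2 ((j.1 : G)⁻¹ * x) := by
    intro x j
    have h1 := pc_le c j.1 j.2 ((j.1 : G)⁻¹ * x)
    simp only [hF]
    rw [Nat.cast_sub (by omega)]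
    push_cast
    ring
  have hsumA : ∀ x, ∑ j : J, pc c j.1 j.2 x = 2 := by
    intro x
    rw [Fintype.sum_prod_type_right]
    have : ∀ b : Bool, ∑ t : ↥T, pc c t b x = 1 := by
      intro b
      unfold pc
      rw [Finset.sum_eq_single (⟨c (x, b), hcT _⟩ : ↥T)]
      · simp
      · intro t _ hne
        rw [if_neg]
        intro h
        exact hne (Subtype.ext h.symm)
      · intro h
        exact absurd (Finset.mem_univ _) h
    rw [Finset.sum_congr rfl (fun b _ => this b)]
    simp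
  have hsumD : ∀ x, ∑ j : J, pc c j.1 j.2 ((j.1 : G)⁻¹ * x) ≤ 1 := by
    intro x
    have h1 : ∑ j : J, pc c j.1 j.2 ((j.1 : G)⁻¹ * x) =
        ((Finset.univ : Finset J).filter (fun j => c ((j.1 : G)⁻¹ * x, j.2) = j.1)).card := by
      rw [Finset.card_filter]
      rfl
    rw [h1, Finset.card_le_one]
    rintro ⟨t, b⟩ h ⟨t', b'⟩ h'
    rw [Finset.mem_filter] at h h'
    have h2 := h.2
    have h3 := h'.2
    simp only at h2 h3
    have h4 : (fun q : G × Bool => c q * q.1) ((t : G)⁻¹ * x, b) =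
        (fun q : G × Bool => c q * q.1) ((t' : G)⁻¹ * x, b') := by
      simp only [h2, h3]
      group
    have h5 := hinj h4
    rw [Prod.mk.injEq] at h5
    obtain ⟨h6, h7⟩ := h5
    have h8 : (t : G) = t' := by
      have := mul_right_cancel h6
      exact inv_injective this
    exact Prod.ext (Subtype.ext h8) h7
  have hsumF : ∀ x, M + 1 ≤ ∑ j : J, F x j := by
    intro x
    have h1 : ∑ j : J, (F x j + pc c j.1 j.2 ((j.1 : G)⁻¹ * x)) = ∑ j : J, (1 + pc c j.1 j.2 x) := by
      refine Finset.sum_congr rfl (fun j _ => ?_)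
      have h1 := pc_le c j.1 j.2 ((j.1 : G)⁻¹ * x)
      simp only [hF]
      omega
    rw [Finset.sum_add_distrib, Finset.sum_add_distrib, hsumA] at h1
    have h2 : ∑ _j : J, 1 = M := by simp [hM]
    have h3 := hsumD x
    omega
  choose ψ hψ using fun x => exists_urns (F x) (M + 1) (hsumF x)
  -- parameters
  have hMr : (0 : ℝ) < M := by exact_mod_cast hMpos
  set δ : ℝ := 1 / (3 * M * (M + 1) ^ 2) with hδ
  have hδ0 : 0 < δ := by positivity
  have hδ1 : δ ≤ 1 := by
    rw [hδ, div_le_one (by positivity)]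
    have : (1 : ℝ) ≤ M := by exact_mod_cast hMpos
    nlinarith [sq_nonneg ((M : ℝ) + 1)]
  obtain ⟨N, hNpos, hN1, hN2⟩ := exists_N δ hδ0 (M * (M + 1))
  have hNr : (0 : ℝ) < N := by exact_mod_cast hNpos
  obtain ⟨Z, hZ⟩ := Infinite.exists_subset_card_eq G N
  obtain ⟨L, hL⟩ : ∃ L : ℕ, L = M + 1 := ⟨_, rfl⟩
  -- the events
  set P : (J × Fin L) × G → Finset G :=
    fun x => Z.image (fun z => ((x.1.1.1 : G)⁻¹) ^ (x.1.2 : ℕ) * z * x.2) with hP
  have hinjz : ∀ g y : G, Function.Injective (fun z : G => g * z * y) := by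
    intro g y a b hab
    exact mul_left_cancel (mul_right_cancel hab)
  have hPcard : ∀ x, (P x).card = N := by
    intro x
    rw [hP]
    simp only
    rw [Finset.card_image_of_injective _ (hinjz _ _), hZ]
  set Bd : (J × Fin L) × G → G → Finset (Fin (M + 1)) :=
    fun x v => Finset.univ.filter (fun q => ψ v q = x.1.1) with hBd
  have hBdc : ∀ x v, ((Bd x v).card : ℝ) ≤ F v x.1.1 := by
    intro x v
    have h1 := hψ v x.1.1
    have h2 : (Bd x v).card ≤ F v x.1.1 := by
      simp only [hBd]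
      convert h1
    exact_mod_cast h2
  have hdeg : ∀ (x : (J × Fin L) × G) (I' : Finset ((J × Fin L) × G)),
      (∀ y ∈ I', ∃ v, v ∈ P x ∧ v ∈ P y) → I'.card ≤ M * (M + 1) * N ^ 2 := by
    intro x I' hI'
    have hsub : I' ⊆ ((Finset.univ : Finset (J × Fin L)) ×ˢ (P x ×ˢ Z)).image
        (fun w => (w.1, (((w.1.1.1 : G)⁻¹) ^ (w.1.2 : ℕ) * w.2.2)⁻¹ * w.2.1)) := by
      intro y hy
      obtain ⟨v, hv1, hv2⟩ := hI' y hy
      obtain ⟨z, hz, hzv⟩ := Finset.mem_image.1 hv2
      rw [Finset.mem_image]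
      refine ⟨(y.1, (v, z)), ?_, ?_⟩
      · rw [Finset.mem_product, Finset.mem_product]
        exact ⟨Finset.mem_univ _, hv1, hz⟩
      · refine Prod.ext rfl ?_
        simp only
        rw [← hzv]
        group
    refine (Finset.card_le_card hsub).trans (Finset.card_image_le.trans ?_)
    rw [Finset.card_product, Finset.card_product, hPcard, hZ, Finset.card_univ, Fintype.card_prod,
      Fintype.card_fin, ← hM, hL, pow_two]
  obtain ⟨ω, hω⟩ := lll_inf (Nat.succ_pos M) P Bd δ hδ0.le hδ1 N hPcard (M * (M + 1) * N ^ 2)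
    hdeg (by
      have : 0 < M * (M + 1) * N ^ 2 := by positivity
      omega) (by push_cast; exact hN2)
  -- surjectivity
  obtain ⟨g⟩ : Nonempty (Fin M ↪ G) := ⟨Fin.valEmbedding.trans (Infinite.natEmbedding G)⟩
  set col : G → Fin M := fun x => if h : ∃ i, g i = x then h.choose else e (ψ x (ω x)) with hcol
  have hcolg : ∀ i, col (g i) = i := by
    intro i
    have h : ∃ i', g i' = g i := ⟨i, rfl⟩
    simp only [hcol]
    rw [dif_pos h]
    exact g.injective h.choose_spec
  have hcol2 : ∀ x j, col x = j → x = g j ∨ ψ x (ω x) = e.symm j := by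
    intro x j hxj
    by_cases h : ∃ i, g i = x
    · left
      obtain ⟨i, rfl⟩ := h
      rw [hcolg] at hxj
      rw [hxj]
    · right
      simp only [hcol] at hxj
      rw [dif_neg h] at hxj
      rw [← hxj, Equiv.symm_apply_apply]
  refine ⟨M, hMpos, col, fun i => ⟨g i, hcolg i⟩, L, N, by omega, hNpos,
    fun j => ((e.symm j).1 : G)⁻¹, Z, δ, hδ0, hZ, ?_⟩
  intro j y
  set jj : J := e.symm j with hjj
  set s : G := (jj.1 : G)⁻¹ with hs
  have hstep : ∀ k : Fin L, ((Z.filter (fun z => col (s ^ (k : ℕ) * z * y) = j)).card : ℝ) ≤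
      (∑ z ∈ Z, (F (s ^ (k : ℕ) * z * y) jj : ℝ) / (M + 1)) + δ * N + 1 := by
    intro k
    have h1 : (Z.filter (fun z => col (s ^ (k : ℕ) * z * y) = j)).card ≤
        (hits (P ((jj, k), y)) (Bd ((jj, k), y)) ω).card + 1 := by
      have h2 : (Z.filter (fun z => col (s ^ (k : ℕ) * z * y) = j)).image
          (fun z => s ^ (k : ℕ) * z * y) ⊆
          insert (g j) (hits (P ((jj, k), y)) (Bd ((jj, k), y)) ω) := by
        intro v hv
        obtain ⟨z, hz, rfl⟩ := Finset.mem_image.1 hv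
        obtain ⟨hz1, hz2⟩ := Finset.mem_filter.1 hz
        rw [Finset.mem_insert]
        rcases hcol2 _ _ hz2 with h | h
        · left; exact h
        · right
          refine Finset.mem_filter.2 ⟨Finset.mem_image.2 ⟨z, hz1, rfl⟩, ?_⟩
          simp only [hBd, Finset.mem_filter, Finset.mem_univ, true_and]
          exact h
      have h3 := Finset.card_le_card h2
      rw [Finset.card_image_of_injective _ (hinjz _ _)] at h3
      exact h3.trans (Finset.card_insert_le _ _)
    have h2 : expct (P ((jj, k), y)) (Bd ((jj, k), y)) ≤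
        ∑ z ∈ Z, (F (s ^ (k : ℕ) * z * y) jj : ℝ) / (M + 1) := by
      unfold expct
      rw [hP]
      simp only
      rw [Finset.sum_image (fun a _ b _ hab => hinjz _ _ hab)]
      refine Finset.sum_le_sum (fun z _ => ?_)
      push_cast
      refine div_le_div_of_nonneg_right ?_ (by positivity)
      exact hBdc ((jj, k), y) _
    have h3 := hω ((jj, k), y)
    have h4 : ((Z.filter (fun z => col (s ^ (k : ℕ) * z * y) = j)).card : ℝ) ≤
        (hits (P ((jj, k), y)) (Bd ((jj, k), y)) ω).card + 1 := by exact_mod_cast h1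
    linarith
  have htel : ∀ z : G, ∑ k ∈ Finset.range L, (F (s ^ k * z * y) jj : ℝ) ≤ L + 1 := by
    intro z
    have h1 : ∀ k, (F (s ^ k * z * y) jj : ℝ) = 1 + ((pc c jj.1 jj.2 (s ^ k * z * y) : ℝ) -
        (pc c jj.1 jj.2 (s ^ (k + 1) * z * y) : ℝ)) := by
      intro k
      rw [hFreal, pow_succ']
      have : s * s ^ k * z * y = (jj.1 : G)⁻¹ * (s ^ k * z * y) := by
        rw [hs]; group
      rw [this]
      ring
    rw [Finset.sum_congr rfl (fun k _ => h1 k), Finset.sum_add_distrib,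
      Finset.sum_range_sub' (fun k => (pc c jj.1 jj.2 (s ^ k * z * y) : ℝ))]
    have h2' := pc_le c (jj.1 : G) jj.2 (s ^ (0 : ℕ) * z * y)
    have h2 : ((pc c jj.1 jj.2 (s ^ (0 : ℕ) * z * y) : ℕ) : ℝ) ≤ 1 := by exact_mod_cast h2'
    have h3 : (0 : ℝ) ≤ ((pc c jj.1 jj.2 (s ^ L * z * y) : ℕ) : ℝ) := Nat.cast_nonneg _
    simp only [Finset.sum_const, Finset.card_range, nsmul_eq_mul, mul_one]
    linarith
  have hsum : ∑ k ∈ Finset.range L, ((Z.filter (fun z => col (s ^ k * z * y) = j)).card : ℝ) ≤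
      N * ((L + 1) / (M + 1)) + L * (δ * N + 1) := by
    calc ∑ k ∈ Finset.range L, ((Z.filter (fun z => col (s ^ k * z * y) = j)).card : ℝ)
        ≤ ∑ k ∈ Finset.range L,
          ((∑ z ∈ Z, (F (s ^ k * z * y) jj : ℝ) / (M + 1)) + (δ * N + 1)) := by
          refine Finset.sum_le_sum (fun k hk => ?_)
          have := hstep ⟨k, Finset.mem_range.1 hk⟩
          simp only at this
          linarith
      _ = (∑ z ∈ Z, (∑ k ∈ Finset.range L, (F (s ^ k * z * y) jj : ℝ)) / (M + 1)) +
          L * (δ * N + 1) := by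
          rw [Finset.sum_add_distrib, Finset.sum_comm]
          simp only [Finset.sum_const, Finset.card_range, nsmul_eq_mul]
          congr 1
          refine Finset.sum_congr rfl (fun z _ => ?_)
          rw [Finset.sum_div]
      _ ≤ (∑ _z ∈ Z, ((L : ℝ) + 1) / (M + 1)) + L * (δ * N + 1) := by
          refine add_le_add (Finset.sum_le_sum (fun z _ => ?_)) le_rfl
          exact div_le_div_of_nonneg_right (htel z) (by positivity)
      _ = _ := by
          rw [Finset.sum_const, hZ, nsmul_eq_mul]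
  refine hsum.trans ?_
  have hL' : (L : ℝ) = M + 1 := by rw [hL]; push_cast; ring
  have h1N : 1 ≤ δ * N := by
    rw [div_le_iff₀ hNr] at hN1
    exact hN1
  rw [hL']
  have h2 : ((M : ℝ) + 1) * (δ * N + 1) ≤ (M + 1) * (2 * (δ * N)) :=
    mul_le_mul_of_nonneg_left (by linarith) (by positivity)
  have h3 : (N : ℝ) * ((M + 1 + 1) / (M + 1)) + (M + 1) * (2 * (δ * N)) =
      (1 / M - δ) * ((M + 1) * N) := by
    rw [hδ]
    field_simp
    ring
  linarith

end Pool.Agent.R160.AM
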