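import Mathlib
import Pool.Agent.PackIndex.Defs
import Pool.Agent.R160.AM.Main

/-!
# Groups with property (a) are amenable

Property (a): for every `n ≥ 1` and every partition of the group `G` into `n` cells there is a cell
`A` with `is₁₂(A) ≥ 1/n`, where `is₁₂(A) = inf_μ sup_y μ(A y)`, `μ` running over the finitely
supported probability measures on `G`. We prove that every group with property (a) is amenable. Only
partitions into nonempty cells are used.

Sketch. In a non-amenable group there is (Følner, Hall) a map `c` from `G × {0,1}` to a finite set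
`T` with `(x, b) ↦ c(x,b) x` injective. For `j = (t, b)` put `a_j = 1[c(·,b) = t]` and
`F_j(x) = 1 + a_j(x) - a_j(t⁻¹ x)`. With `M = 2 |T|`, `∑_j F_j ≥ M + 1`, and the averages of `F_j`
over long pieces `t^{-k} Z y` are at most `1 + 1/L`. Colour `x` by `j` with probability at most
`F_j(x)/(M+1)`, independently. By the Lovász local lemma and compactness some colouring has all the
frequencies of the colour `j` in these pieces close to or below the expected ones, that is at most
`(1 + 1/L)/(M + 1) + δ < 1/M`.
-/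

set_option autoImplicit false

namespace Pool.Agent.R160.AM.DensityOneOverN

open Pool.Agent.PackIndex
open scoped Classical

universe u

/-- `μ` is a finitely supported probability measure on `G`, given by the weights of the points. -/
def IsProb {G : Type u} (μ : G →₀ ℝ) : Prop :=
  (∀ x, 0 ≤ μ x) ∧ ∑ x ∈ μ.support, μ x = 1

/-- `μ(A)`: the sum of the weights of the points of `A`. -/
noncomputable def mass {G : Type u} (μ : G →₀ ℝ) (A : Set G) : ℝ :=
  ∑ x ∈ μ.support, A.indicator μ x

/-- `is₁₂(A) = inf_μ sup_y μ(A y)`. -/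
noncomputable def is12 {G : Type u} [Group G] (A : Set G) : ℝ :=
  ⨅ μ : {μ : G →₀ ℝ // IsProb μ}, ⨆ y : G, mass μ.1 ((fun a => a * y) '' A)

/-- Property (a), for partitions into nonempty cells `{x | c x = i}`, `i < n`: some cell has
`is₁₂ ≥ 1/n`. -/
def PropertyA (G : Type u) [Group G] : Prop :=
  ∀ n : ℕ, 1 ≤ n → ∀ c : G → Fin n, Function.Surjective c →
    ∃ i : Fin n, 1 / (n : ℝ) ≤ is12 {x | c x = i}

/-- The mass as a linear functional. -/
theorem mass_eq {G : Type u} (μ : G →₀ ℝ) (A : Set G) :
    mass μ A = Finsupp.linearCombination ℝ (fun x => A.indicator (fun _ => (1 : ℝ)) x) μ := by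
  rw [Finsupp.linearCombination_apply, Finsupp.sum]
  refine Finset.sum_congr rfl (fun x _ => ?_)
  by_cases hx : x ∈ A
  · simp [hx]
  · simp [hx]

theorem mass_nonneg {G : Type u} {μ : G →₀ ℝ} (h : IsProb μ) (A : Set G) : 0 ≤ mass μ A :=
  Finset.sum_nonneg (fun x _ => Set.indicator_nonneg (fun x _ => h.1 x) x)

/-- A witness bounds `is₁₂`. -/
theorem is12_le {G : Type u} [Group G] (A : Set G) (μ : G →₀ ℝ) (h : IsProb μ) (r : ℝ)
    (hr : ∀ y : G, mass μ ((fun a => a * y) '' A) ≤ r) : is12 A ≤ r := by
  refine (ciInf_le (f := fun μ : {μ : G →₀ ℝ // IsProb μ} =>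
    ⨆ y : G, mass μ.1 ((fun a => a * y) '' A)) ?_ ⟨μ, h⟩).trans ?_
  · refine ⟨0, ?_⟩
    rintro _ ⟨ν, rfl⟩
    exact Real.iSup_nonneg (fun y => mass_nonneg ν.2 _)
  · exact ciSup_le hr

theorem result (G : Type u) [Group G] (h : PropertyA G) : IsAmenable G := by
  by_contra hna
  obtain ⟨T, c, hcT, hinj⟩ := Pool.Agent.R160.AM.exists_para hna
  obtain ⟨M, hM, col, hsurj, L, N, hL, hN, s, Z, η, hη, hZ, hcol⟩ :=
    Pool.Agent.R160.AM.exists_colouring T c hcT hinj
  obtain ⟨j, hj⟩ := h M hM col hsurj
  have hMr : (0 : ℝ) < M := by exact_mod_cast hM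
  have hLr : (0 : ℝ) < L := by exact_mod_cast hL
  have hNr : (0 : ℝ) < N := by exact_mod_cast hN
  set μ : G →₀ ℝ := ∑ k ∈ Finset.range L, ∑ z ∈ Z, Finsupp.single (s j ^ k * z) (1 / ((L : ℝ) * N))
    with hμ
  have hmass : ∀ A : Set G, mass μ A = ∑ k ∈ Finset.range L,
      ((Z.filter (fun z => s j ^ k * z ∈ A)).card : ℝ) / ((L : ℝ) * N) := by
    intro A
    rw [mass_eq, hμ, map_sum]
    refine Finset.sum_congr rfl (fun k _ => ?_)
    rw [map_sum, Finset.card_filter]
    push_cast
    rw [Finset.sum_div]
    refine Finset.sum_congr rfl (fun z _ => ?_)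
    rw [Finsupp.linearCombination_single]
    by_cases hz : s j ^ k * z ∈ A
    · simp [hz]
    · simp [hz]
  have hprob : IsProb μ := by
    refine ⟨fun x => ?_, ?_⟩
    · rw [hμ, Finsupp.finsetSum_apply]
      refine Finset.sum_nonneg (fun k _ => ?_)
      rw [Finsupp.finsetSum_apply]
      refine Finset.sum_nonneg (fun z _ => ?_)
      rw [Finsupp.single_apply]
      split_ifs
      · positivity
      · exact le_rfl
    · have h1 := hmass Set.univ
      have h2 : mass μ Set.univ = ∑ x ∈ μ.support, μ x := by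
        unfold mass
        simp
      rw [← h2, h1]
      simp only [Set.mem_univ, Finset.filter_true, hZ, Finset.sum_const, Finset.card_range,
        nsmul_eq_mul]
      field_simp
  have hle : is12 {x | col x = j} ≤ 1 / (M : ℝ) - η := by
    refine is12_le _ μ hprob _ (fun y => ?_)
    rw [hmass, ← Finset.sum_div, div_le_iff₀ (by positivity)]
    refine le_trans (Finset.sum_le_sum (fun k _ => ?_)) (hcol j y⁻¹)
    refine Nat.cast_le.2 (Finset.card_le_card ?_)
    intro z hz
    obtain ⟨hz1, a, ha, haz⟩ := Finset.mem_filter.1 hz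
    refine Finset.mem_filter.2 ⟨hz1, ?_⟩
    have : s j ^ k * z * y⁻¹ = a := by
      rw [← haz]
      simp
    rw [this]
    exact ha
  linarith

end Pool.Agent.R160.AM.DensityOneOverN
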